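import Pool.Agent.X12.Pf
import Pool.Agent.Helper929.Pfaffian

/-!
# The Legendre symbol of the square root of the cubic Legendre-twisted determinant `D_p^(3)`

Modulo `p` the matrix is `[(x_j - x_k) ^ (n + 3)]` with `x_j = j²` and `n = (p - 1) / 2 = 2 h`, and since the
`x_j` are `n`-th roots of unity this is `V K Vᵀ` with the Vandermonde matrix `V` and a skew-symmetric
matrix `K` with one nonzero entry in every row.  Hence the square root is `± det V ∏ c_i` modulo `p`, and the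
symbols of the binomial coefficients `c_i` are expressed through factorials.
-/

set_option autoImplicit false

namespace Pool.Agent.Results.MP_dd0b6b_nt.CubicRootSymbol

open Finset Pool.Agent.X12

/-- The matrix with the entries `(j² - k²)³ (j² - k² / p)`, `1 ≤ j, k ≤ (p - 1) / 2`. -/
def A (p : ℕ) [Fact p.Prime] : Matrix (Fin ((p - 1) / 2)) (Fin ((p - 1) / 2)) ℤ :=
  Matrix.of fun j k => (((j : ℤ) + 1) ^ 2 - ((k : ℤ) + 1) ^ 2) ^ 3 *
    legendreSym p (((j : ℤ) + 1) ^ 2 - ((k : ℤ) + 1) ^ 2)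

/-- The number of the integers `0 < k < p / 4` with `(k / p) = -1`. -/
def N (p : ℕ) [Fact p.Prime] : ℕ :=
  ((Finset.Ico 1 p).filter (fun k : ℕ => 4 * k < p ∧ legendreSym p (k : ℤ) = -1)).card

/-- the coefficients -/
def c {R : Type*} [Ring R] (n i : ℕ) : R :=
  (-(-1) ^ i * ((n + 3).choose (i + 2) : R) + if i = 0 then -(n + 3 : R) else 0) +
    if i = 1 then 1 else 0

lemma poly {R : Type*} [CommRing R] {h : ℕ} (hh : 1 < h) (x y : R) (hx : x ^ (h + h) = 1)
    (hy : y ^ (h + h) = 1) :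
    (x * y) ^ (h - 2) * (x - y) ^ (h + h + 3) = ∑ i ∈ range h, c (h + h) i *
      (x ^ (h + i) * y ^ (h - 1 - i) - x ^ (h - 1 - i) * y ^ (h + i)) := by
  obtain ⟨g, rfl⟩ : ∃ g, h = g + 2 := ⟨h - 2, by omega⟩
  set n : ℕ := g + 2 + (g + 2) with hn
  rw [sub_pow, Finset.sum_range_succ, Finset.sum_range_succ, Finset.sum_range_succ',
    Finset.sum_range_succ']
  have h1 : ∀ f : ℕ → R, ∑ k ∈ range n, f (k + 1 + 1) =
      ∑ i ∈ range (g + 2), (f (i + 2) + f (n + 1 - i)) := by
    intro f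
    rw [hn, Finset.sum_range_add, Finset.sum_add_distrib]
    congr 1
    rw [← Finset.sum_range_reflect]
    refine Finset.sum_congr rfl fun i hi => ?_
    have := Finset.mem_range.1 hi
    congr 1
    omega
  rw [h1 (fun m => (-1) ^ (m + (n + 3)) * x ^ m * y ^ (n + 3 - m) * ((n + 3).choose m : R))]
  have h2 : ∑ i ∈ range (g + 2), c n i *
      (x ^ (g + 2 + i) * y ^ (g + 2 - 1 - i) - x ^ (g + 2 - 1 - i) * y ^ (g + 2 + i)) =
      ∑ i ∈ range (g + 2), (-(-1) ^ i * ((n + 3).choose (i + 2) : R)) *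
      (x ^ (g + 2 + i) * y ^ (g + 1 - i) - x ^ (g + 1 - i) * y ^ (g + 2 + i)) +
      -(n + 3 : R) * (x ^ (g + 2) * y ^ (g + 1) - x ^ (g + 1) * y ^ (g + 2)) +
      (x ^ (g + 3) * y ^ g - x ^ g * y ^ (g + 3)) := by
    have e : ∀ i ∈ range (g + 2), c n i *
      (x ^ (g + 2 + i) * y ^ (g + 2 - 1 - i) - x ^ (g + 2 - 1 - i) * y ^ (g + 2 + i)) =
      ((-(-1) ^ i * ((n + 3).choose (i + 2) : R)) *
      (x ^ (g + 2 + i) * y ^ (g + 1 - i) - x ^ (g + 1 - i) * y ^ (g + 2 + i)) +
      (if i = 0 then -(n + 3 : R) * (x ^ (g + 2) * y ^ (g + 1) - x ^ (g + 1) * y ^ (g + 2)) else 0)) +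
      (if i = 1 then (x ^ (g + 3) * y ^ g - x ^ g * y ^ (g + 3)) else 0) := by
      intro i _
      unfold c
      rw [show g + 2 - 1 - i = g + 1 - i by omega]
      rcases Nat.eq_zero_or_pos i with rfl | hi
      · simp only [add_zero, Nat.sub_zero, if_true, zero_ne_one, if_false]; ring
      · rcases Nat.eq_or_lt_of_le hi with h | h
        · have hi1 : i = 1 := h.symm
          subst hi1
          rw [show g + 1 - 1 = g by omega, if_pos rfl, if_neg one_ne_zero, if_pos rfl,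
            if_neg one_ne_zero]
          ring
        · rw [if_neg (by omega), if_neg (by omega), if_neg (by omega), if_neg (by omega)]
          ring
    rw [Finset.sum_congr rfl e, Finset.sum_add_distrib, Finset.sum_add_distrib,
      Finset.sum_ite_eq', Finset.sum_ite_eq', if_pos (by simp), if_pos (by simp)]
  have hev : (-1 : R) ^ n = 1 := Even.neg_one_pow ⟨g + 2, hn⟩
  have h3 : ∀ i ∈ range (g + 2), (x * y) ^ g *
      ((-1) ^ (i + 2 + (n + 3)) * x ^ (i + 2) * y ^ (n + 3 - (i + 2)) * ((n + 3).choose (i + 2) : R) +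
      (-1) ^ (n + 1 - i + (n + 3)) * x ^ (n + 1 - i) * y ^ (n + 3 - (n + 1 - i)) *
        ((n + 3).choose (n + 1 - i) : R)) =
      (-(-1) ^ i * ((n + 3).choose (i + 2) : R)) *
        (x ^ (g + 2 + i) * y ^ (g + 1 - i) - x ^ (g + 1 - i) * y ^ (g + 2 + i)) := by
    intro i hi
    obtain ⟨t, ht⟩ : ∃ t, g + 1 = i + t := ⟨g + 1 - i, by have := Finset.mem_range.1 hi; omega⟩
    have e1 : y ^ g * y ^ (n + 3 - (i + 2)) = y ^ t := by
      rw [← pow_add, show g + (n + 3 - (i + 2)) = t + n by omega, pow_add, hy, mul_one]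
    have e2 : x ^ g * x ^ (n + 1 - i) = x ^ t := by
      rw [← pow_add, show g + (n + 1 - i) = t + n by omega, pow_add, hx, mul_one]
    have e3 : n + 3 - (n + 1 - i) = i + 2 := by omega
    have e4 : (n + 3).choose (n + 1 - i) = (n + 3).choose (i + 2) :=
      Nat.choose_symm_of_eq_add (by omega)
    have e5 : (-1 : R) ^ (i + 2 + (n + 3)) = -(-1) ^ i := by
      rw [show i + 2 + (n + 3) = i + n + 5 by ring, pow_add, pow_add, hev]; ring
    have e6 : (-1 : R) ^ (n + 1 - i + (n + 3)) = (-1) ^ i := by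
      have e7 : (-1 : R) ^ (n + 1 - i) * (-1) ^ i = -1 := by
        rw [← pow_add, show n + 1 - i + i = n + 1 by omega, pow_succ, hev, one_mul]
      have e8 : (-1 : R) ^ i * (-1) ^ i = 1 := by rw [← mul_pow]; simp
      rw [pow_add, pow_add, hev]
      linear_combination (-(-1 : R) ^ i) * e7 + (-1) ^ (n + 1 - i) * e8
    rw [e3, e4, e5, e6, show g + 1 - i = t by omega, mul_pow]
    linear_combination (-(-1 : R) ^ i) * ((n + 3).choose (i + 2) : R) * x ^ g * x ^ (i + 2) * e1 +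
      (-1 : R) ^ i * ((n + 3).choose (i + 2) : R) * y ^ g * y ^ (i + 2) * e2
  rw [h2, Nat.add_sub_cancel, mul_add, mul_add, mul_add, mul_add, Finset.mul_sum,
    Finset.sum_congr rfl h3]
  have e9 : ∀ k, y ^ (n + k) = y ^ k := fun k => by rw [pow_add, hy, one_mul]
  have e10 : ∀ k, x ^ (n + k) = x ^ k := fun k => by rw [pow_add, hx, one_mul]
  have e11 : ∀ k, (-1 : R) ^ (n + k) = (-1) ^ k := fun k => by rw [pow_add, hev, one_mul]
  have e12 : (n + 3).choose (n + 2) = n + 3 := Nat.choose_succ_self_right (n + 2)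
  rw [show n + 3 - (0 + 1) = n + 2 by omega, show n + 3 - 0 = n + 3 by omega,
    show n + 3 - (n + 2) = 1 by omega, show n + 3 - (n + 3) = 0 by omega,
    show 0 + 1 + (n + 3) = n + 4 by ring, show 0 + (n + 3) = n + 3 by ring,
    show n + 2 + (n + 3) = n + (n + 5) by ring, show n + 3 + (n + 3) = n + (n + 6) by ring,
    e9, e9, e10, e10, e11, e11, e11, e11, e11, e11, e12, Nat.choose_self, Nat.choose_zero_right,
    zero_add, Nat.choose_one_right, mul_pow]
  push_cast
  ring

section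

variable {p : ℕ} [Fact p.Prime]

lemma N_eq {h : ℕ} (hp : p = 4 * h + 1) : N p =
    ((Finset.Icc 1 h).filter (fun k : ℕ => legendreSym p (k : ℤ) = -1)).card := by
  unfold N
  congr 1
  ext k
  rw [mem_filter, mem_filter, mem_Ico, mem_Icc]
  constructor
  · rintro ⟨⟨h1, h2⟩, h3, h4⟩
    exact ⟨⟨h1, by omega⟩, h4⟩
  · rintro ⟨⟨h1, h2⟩, h4⟩
    exact ⟨⟨h1, by omega⟩, by omega, h4⟩

lemma qc_three (hp : p % 4 = 1) : qc p 3 = legendreSym 3 p := by
  have : Fact (Nat.Prime 3) := ⟨Nat.prime_three⟩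
  have h1 := legendreSym.quadratic_reciprocity_one_mod_four (p := p) (q := 3) hp (by norm_num)
  have h2 : legendreSym p ((3 : ℕ) : ℤ) = qc p 3 := by rw [legendre_eq]; push_cast; rfl
  rw [← h2, h1]

lemma qc_choose {N k : ℕ} (hk : k ≤ N) (hN : N < p) :
    qc p ((N.choose k : ℕ) : ZMod p) = qc p ((N.factorial : ℕ) : ZMod p) *
      (qc p ((k.factorial : ℕ) : ZMod p) * qc p (((N - k).factorial : ℕ) : ZMod p)) := by
  have h1 := Nat.choose_mul_factorial_mul_factorial hk
  have h2 : ((N.choose k : ℕ) : ZMod p) * ((k.factorial : ℕ) : ZMod p) *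
      (((N - k).factorial : ℕ) : ZMod p) = ((N.factorial : ℕ) : ZMod p) := by
    rw [← h1]; push_cast; ring
  rw [← h2, qc_mul, qc_mul]
  have e1 := qc_sq (fact_ne_zero (p := p) (t := k) (by omega))
  have e2 := qc_sq (fact_ne_zero (p := p) (t := N - k) (by omega))
  linear_combination -(qc p ((N.choose k : ℕ) : ZMod p) * (qc p ((k.factorial : ℕ) : ZMod p) *
    qc p ((k.factorial : ℕ) : ZMod p))) * e2 - qc p ((N.choose k : ℕ) : ZMod p) * e1

lemma qc_neg_pow (hp : p % 4 = 1) (i : ℕ) : qc p ((-1) ^ i) = 1 := by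
  rw [qc_pow, qc_neg_one_of_one hp, one_pow]

lemma qc_five (hp : p % 4 = 1) : qc p 5 = jacobiSym p 5 := by
  have : Fact (Nat.Prime 5) := ⟨Nat.prime_five⟩
  have h1 := legendreSym.quadratic_reciprocity_one_mod_four (p := p) (q := 5) hp (by norm_num)
  have h2 : legendreSym p ((5 : ℕ) : ℤ) = qc p 5 := by rw [legendre_eq]; push_cast; rfl
  rw [← h2, ← h1, jacobiSym.legendreSym.to_jacobiSym]

lemma nat_ne {a : ℕ} (ha : 0 < a) (hap : a < p) : ((a : ℕ) : ZMod p) ≠ 0 := by
  rw [Ne, ZMod.natCast_eq_zero_iff]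
  intro h
  have := Nat.le_of_dvd ha h
  omega

/-- The product of the symbols of the coefficients. -/
lemma prod_c {n h : ℕ} (hn : p = 2 * n + 1) (hh : n = h + h) (hh0 : 1 < h) :
    ∏ i ∈ range h, qc p (c n i) = qc p 5 * (qc p 3 * qc p 5) ^ h *
      qc p ((n.factorial : ℕ) : ZMod p) * qc p ((h.factorial : ℕ) : ZMod p) := by
  have hp : p % 4 = 1 := by omega
  have hp7 : p ≠ 7 := by omega
  have hp8 : 8 < p := by omega
  obtain ⟨g, rfl⟩ : ∃ g, h = g + 2 := ⟨h - 2, by omega⟩
  have h20 : (2 : ZMod p) ≠ 0 := by exact_mod_cast nat_ne (p := p) (a := 2) (by norm_num) (by omega)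
  have h30 : (3 : ZMod p) ≠ 0 := by exact_mod_cast nat_ne (p := p) (a := 3) (by norm_num) (by omega)
  have h50 : (5 : ZMod p) ≠ 0 := by exact_mod_cast nat_ne (p := p) (a := 5) (by norm_num) (by omega)
  have h70 : (7 : ZMod p) ≠ 0 := by exact_mod_cast nat_ne (p := p) (a := 7) (by norm_num) (by omega)
  have hq2 := qc_two hn hh
  have hqn := qc_fact_half hn hh (by omega)
  have h22 := qc_sq h20
  have h33 := qc_sq h30
  have h55 := qc_sq h50
  have h77 := qc_sq h70
  have hm1 := qc_neg_one_of_one (p := p) hp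
  have hp0 : (2 : ZMod p) * n + 1 = 0 := by
    have : ((2 * n + 1 : ℕ) : ZMod p) = 0 := by rw [← hn]; exact ZMod.natCast_self p
    push_cast at this
    exact this
  -- `(n + 3)!`
  have hw : qc p (((n + 3).factorial : ℕ) : ZMod p) = qc p 3 * qc p 5 := by
    have e1 : qc p 2 * qc p ((n : ZMod p) + 1) = 1 := by
      rw [← qc_mul, ← qc_one (p := p)]; congr 1; linear_combination hp0
    have e2 : qc p 2 * qc p ((n : ZMod p) + 2) = qc p 3 := by
      rw [← qc_mul]; congr 1; linear_combination hp0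
    have e3 : qc p 2 * qc p ((n : ZMod p) + 3) = qc p 5 := by
      rw [← qc_mul]; congr 1; linear_combination hp0
    have e4 : (((n + 3).factorial : ℕ) : ZMod p) =
        ((n : ZMod p) + 3) * (((n : ZMod p) + 2) * (((n : ZMod p) + 1) *
          ((n.factorial : ℕ) : ZMod p))) := by
      rw [Nat.factorial_succ, Nat.factorial_succ, Nat.factorial_succ]
      push_cast
      ring
    rw [e4, qc_mul, qc_mul, qc_mul, hqn, ← hq2]
    calc _ = (qc p 2 * qc p ((n : ZMod p) + 1)) * qc p ((n : ZMod p) + 2) *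
          qc p ((n : ZMod p) + 3) := by ring
      _ = (qc p 2 * qc p 2) * (qc p ((n : ZMod p) + 2) * qc p ((n : ZMod p) + 3)) := by
          rw [e1, h22]; ring
      _ = (qc p 2 * qc p ((n : ZMod p) + 2)) * (qc p 2 * qc p ((n : ZMod p) + 3)) := by ring
      _ = _ := by rw [e2, e3]
  -- the first two coefficients
  have hch2 : (2 : ZMod p) * ((n + 3).choose 2 : ℕ) = (n + 3) * (n + 2) := by
    have := Nat.triangle_succ (n + 2)
    have h1 : (n + 3).choose 2 * 2 = (n + 3) * (n + 2) := by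
      rw [Nat.choose_two_right]
      exact Nat.div_mul_cancel (by
        rw [show n + 3 - 1 = n + 2 by omega, mul_comm]
        exact (Nat.even_mul_succ_self (n + 2)).two_dvd)
    have h2 : (((n + 3).choose 2 * 2 : ℕ) : ZMod p) = (((n + 3) * (n + 2) : ℕ) : ZMod p) := by rw [h1]
    push_cast at h2
    linear_combination h2
  have hch3 : (6 : ZMod p) * ((n + 3).choose 3 : ℕ) = (n + 3) * (n + 2) * (n + 1) := by
    have h1 : (n + 3).choose 3 * 3 = (n + 3) * (n + 2).choose 2 := by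
      have := Nat.add_one_mul_choose_eq (n + 2) 2
      linarith
    have h2 : (n + 2).choose 2 * 2 = (n + 2) * (n + 1) := by
      rw [Nat.choose_two_right]
      exact Nat.div_mul_cancel (by
        rw [show n + 2 - 1 = n + 1 by omega, mul_comm]
        exact (Nat.even_mul_succ_self (n + 1)).two_dvd)
    have h3 : (n + 3).choose 3 * 6 = (n + 3) * (n + 2) * (n + 1) := by nlinarith
    have h4 : (((n + 3).choose 3 * 6 : ℕ) : ZMod p) = (((n + 3) * (n + 2) * (n + 1) : ℕ) : ZMod p) := by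
      rw [h3]
    push_cast at h4
    linear_combination h4
  have hc0 : qc p (c n 0) = qc p 2 * (qc p 5 * qc p 7) := by
    have e2 : ((2 * 2) * 2 : ZMod p) * c n 0 = (-1) * (5 * 7) := by
      unfold c
      rw [if_pos rfl, if_neg (by norm_num), pow_zero, zero_add]
      linear_combination (-4) * hch2 + (-2 * (n : ZMod p) - 13) * hp0
    have e3 := congrArg (qc p) e2
    rw [qc_mul, qc_mul, qc_mul, qc_mul, qc_mul, hm1, one_mul, h22, one_mul] at e3
    calc qc p (c n 0) = (qc p 2 * qc p 2) * qc p (c n 0) := by rw [h22, one_mul]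
      _ = qc p 2 * (qc p 2 * qc p (c n 0)) := by ring
      _ = _ := by rw [e3]
  have hc1 : qc p (c n 1) = qc p 3 * qc p 7 := by
    have e2 : (((2 * 2) * (2 * 2)) * 3 : ZMod p) * c n 1 = (3 * 3) * 7 := by
      unfold c
      rw [if_neg (by norm_num), if_pos rfl, pow_one, add_zero]
      linear_combination 8 * hch3 + (4 * (n : ZMod p) ^ 2 + 22 * n + 33) * hp0
    have e3 := congrArg (qc p) e2
    rw [qc_mul, qc_mul, qc_mul, qc_mul, qc_mul, qc_mul, h22, h33] at e3
    calc qc p (c n 1) = (qc p 3 * qc p 3) * qc p (c n 1) := by rw [h33, one_mul]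
      _ = qc p 3 * (1 * 1 * qc p 3 * qc p (c n 1)) := by ring
      _ = qc p 3 * (1 * qc p 7) := by rw [e3]
      _ = _ := by ring
  -- the other coefficients
  have hci : ∀ i ∈ range g, qc p (c n (i + 2)) = (qc p 3 * qc p 5) *
      (qc p (((i + 4).factorial : ℕ) : ZMod p) * qc p (((n - 1 - i).factorial : ℕ) : ZMod p)) := by
    intro i hi
    have := Finset.mem_range.1 hi
    unfold c
    rw [if_neg (by omega), if_neg (by omega), add_zero, add_zero, neg_mul, qc_neg, hm1, one_mul,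
      qc_mul, qc_neg_pow hp, one_mul, qc_choose (by omega) (by omega), hw,
      show n + 3 - (i + 2 + 2) = n - 1 - i by omega]
  have hP : ∏ i ∈ range g, qc p (c n (i + 2)) = (qc p 3 * qc p 5) ^ g *
      ((∏ i ∈ range g, qc p (((i + 4).factorial : ℕ) : ZMod p)) *
      ∏ i ∈ range g, qc p (((n - 1 - i).factorial : ℕ) : ZMod p)) := by
    rw [Finset.prod_congr rfl hci]
    simp only [Finset.prod_mul_distrib, Finset.prod_const, Finset.card_range, mul_pow]
  rw [show g + 2 = g + 1 + 1 by ring, Finset.prod_range_succ', Finset.prod_range_succ', hc0, hc1,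
    show (fun k => qc p (c n (k + 1 + 1))) = fun k => qc p (c n (k + 2)) from rfl, hP]
  -- the product of all factorials
  have hall := prod_qc_fact (p := p) (h := g + 2) (by omega) h20
  rw [show 2 * (g + 2) = n by omega] at hall
  have hsplit : ∏ t ∈ range n, qc p ((t.factorial : ℕ) : ZMod p) = qc p 3 *
      ((∏ i ∈ range g, qc p (((i + 4).factorial : ℕ) : ZMod p)) *
      ∏ i ∈ range g, qc p (((n - 1 - i).factorial : ℕ) : ZMod p)) := by
    rw [show n = (4 + g) + g by omega, Finset.prod_range_add, Finset.prod_range_add, ← mul_assoc]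
    congr 1
    · congr 1
      · have e6 : (((3 : ℕ).factorial : ℕ) : ZMod p) = 2 * 3 := by norm_num [Nat.factorial]
        have e2 : (((2 : ℕ).factorial : ℕ) : ZMod p) = 2 := by norm_num [Nat.factorial]
        rw [Finset.prod_range_succ, Finset.prod_range_succ, Finset.prod_range_succ,
          Finset.prod_range_one, e6, e2, Nat.factorial_zero, Nat.factorial_one, Nat.cast_one,
          qc_one, qc_mul]
        linear_combination qc p 3 * h22
      · refine Finset.prod_congr rfl fun i _ => ?_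
        rw [add_comm 4 i]
    · rw [← Finset.prod_range_reflect]
      refine Finset.prod_congr rfl fun i hi => ?_
      have := Finset.mem_range.1 hi
      rw [show 4 + g + (g - 1 - i) = 4 + g + g - 1 - i by omega]
  have h2h : qc p 2 ^ (g + 2) * qc p 2 = 1 := by
    rw [hq2, ← pow_mul, ← pow_add, show (g + 2) * (g + 2) + (g + 2) = (g + 2) * (g + 3) by ring]
    exact Even.neg_one_pow (Nat.even_mul_succ_self (g + 2))
  have hprod : (∏ i ∈ range g, qc p (((i + 4).factorial : ℕ) : ZMod p)) *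
      ∏ i ∈ range g, qc p (((n - 1 - i).factorial : ℕ) : ZMod p) = qc p 3 *
      (qc p ((n.factorial : ℕ) : ZMod p) * qc p 2 ^ (g + 2) *
        qc p (((g + 2).factorial : ℕ) : ZMod p)) := by
    rw [← hall, hsplit]
    linear_combination (-((∏ i ∈ range g, qc p (((i + 4).factorial : ℕ) : ZMod p)) *
      ∏ i ∈ range g, qc p (((n - 1 - i).factorial : ℕ) : ZMod p))) * h33
  rw [hprod]
  have h15 : (qc p 3 * qc p 5) ^ 2 = 1 := by rw [mul_pow, sq, sq, h33, h55, one_mul]
  rw [show g + 1 + 1 = g + 2 by ring, pow_add (qc p 3 * qc p 5) g 2, h15, mul_one]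
  calc _ = (qc p 3 * qc p 3) * (qc p 7 * qc p 7) * (qc p 2 ^ (g + 2) * qc p 2) * (qc p 5 *
        (qc p 3 * qc p 5) ^ g * qc p ((n.factorial : ℕ) : ZMod p) *
        qc p (((g + 2).factorial : ℕ) : ZMod p)) := by ring
    _ = _ := by rw [h33, h77, h2h, one_mul, one_mul, one_mul]

end

/-- The determinant is the square of an integer. -/
lemma exists_root (p : ℕ) [Fact p.Prime] (hp : p % 4 = 1) : ∃ s : ℤ, s ^ 2 = (A p).det := by
  refine ⟨_, Helper929.pf_sq_int (A p) fun i j => ?_⟩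
  have h1 : legendreSym p (((i : ℤ) + 1) ^ 2 - ((j : ℤ) + 1) ^ 2) =
      legendreSym p (((j : ℤ) + 1) ^ 2 - ((i : ℤ) + 1) ^ 2) := by
    rw [legendre_eq, legendre_eq, show ((((i : ℤ) + 1) ^ 2 - ((j : ℤ) + 1) ^ 2 : ℤ) : ZMod p) =
      -((((j : ℤ) + 1) ^ 2 - ((i : ℤ) + 1) ^ 2 : ℤ) : ZMod p) by push_cast; ring, qc_neg,
      qc_neg_one_of_one hp, one_mul]
  change (((i : ℤ) + 1) ^ 2 - ((j : ℤ) + 1) ^ 2) ^ 3 *
      legendreSym p (((i : ℤ) + 1) ^ 2 - ((j : ℤ) + 1) ^ 2) =
    -((((j : ℤ) + 1) ^ 2 - ((i : ℤ) + 1) ^ 2) ^ 3 *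
      legendreSym p (((j : ℤ) + 1) ^ 2 - ((i : ℤ) + 1) ^ 2))
  rw [h1]
  ring

/-- The prime five. -/
lemma case_five (s : ℤ) [Fact (Nat.Prime 5)] (hs : s ^ 2 = (A 5).det) :
    legendreSym 5 s = (-1) ^ N 5 * jacobiSym 5 3 := by
  have h1 : (A 5).det = 729 := by
    have e1 : legendreSym 5 (-3) = -1 := by norm_num
    have e2 : legendreSym 5 3 = -1 := by norm_num
    have e : (A 5).det = (A 5 : Matrix (Fin 2) (Fin 2) ℤ) 0 0 * (A 5 : Matrix (Fin 2) (Fin 2) ℤ) 1 1 -
        (A 5 : Matrix (Fin 2) (Fin 2) ℤ) 0 1 * (A 5 : Matrix (Fin 2) (Fin 2) ℤ) 1 0 :=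
      Matrix.det_fin_two (A 5 : Matrix (Fin 2) (Fin 2) ℤ)
    rw [e]
    have a00 : (A 5 : Matrix (Fin 2) (Fin 2) ℤ) 0 0 = 0 := by simp [A]
    have a01 : (A 5 : Matrix (Fin 2) (Fin 2) ℤ) 0 1 = 27 := by
      have : (A 5 : Matrix (Fin 2) (Fin 2) ℤ) 0 1 = (-3) ^ 3 * legendreSym 5 (-3) := rfl
      rw [this, e1]; norm_num
    have a10 : (A 5 : Matrix (Fin 2) (Fin 2) ℤ) 1 0 = -27 := by
      have : (A 5 : Matrix (Fin 2) (Fin 2) ℤ) 1 0 = 3 ^ 3 * legendreSym 5 3 := rfl
      rw [this, e2]; norm_num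
    rw [a00, a01, a10]
    norm_num
  have h2 : N 5 = 0 := by
    unfold N
    rw [Finset.card_eq_zero, Finset.filter_eq_empty_iff]
    intro k hk
    rw [Finset.mem_Ico] at hk
    rintro ⟨h3, h4⟩
    have hk1 : k = 1 := by omega
    rw [hk1] at h4
    norm_num at h4
  have h3 : jacobiSym 5 3 = -1 := by norm_num
  rw [h1] at hs
  rw [h2, h3]
  have h4 : s = 27 ∨ s = -27 := by
    have : (s - 27) * (s + 27) = 0 := by linear_combination hs
    rcases mul_eq_zero.1 this with h | h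
    · left; linarith
    · right; linarith
  rcases h4 with rfl | rfl
  · norm_num
  · norm_num

/-- **Q1.**  For all primes `p ≡ 1 (mod 4)` the determinant `D_p ^ (3)` is the square of an integer, and if
`s ^ 2 = D_p ^ (3)` then `(s / p) = (-1) ^ N_p (p / (4 + (-1) ^ ((p - 1) / 4)))`. -/
theorem result (p : ℕ) [Fact p.Prime] (hp : p % 4 = 1) :
    (∃ s : ℤ, s ^ 2 = (A p).det) ∧
    ∀ s : ℤ, s ^ 2 = (A p).det → legendreSym p s =
      (-1) ^ N p * jacobiSym p (4 + (-1 : ℤ) ^ ((p - 1) / 4)).toNat := by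
  refine ⟨exists_root p hp, fun s hs => ?_⟩
  have hpr := (Fact.out : p.Prime)
  obtain ⟨h, hh⟩ : ∃ h, p = 4 * h + 1 := ⟨p / 4, by omega⟩
  have hh0 : 0 < h := by
    rcases Nat.eq_zero_or_pos h with h0 | h0
    · exfalso
      rw [h0] at hh
      exact hpr.one_lt.ne' (by omega)
    · exact h0
  by_cases hh1 : h = 1
  · have hp5 : p = 5 := by omega
    subst hp5
    exact case_five s hs
  have hn' : (p - 1) / 2 = h + h := by omega
  have hn : p = 2 * ((p - 1) / 2) + 1 := by omega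
  have h1 := qc_sqrt_det (p := p) hn hn' 3 (h - 2) (c ((p - 1) / 2)) (by
    intro x y hx hy
    rw [hn'] at hx hy ⊢
    exact poly (by omega) x y hx hy) (A p) (fun j k => rfl) s hs
  rw [h1, prod_c hn hn' (by omega), qc_fact_count (h := h) (by omega), ← N_eq hh]
  have h2 := qc_sq (fact_ne_zero (p := p) (t := (p - 1) / 2) (by omega))
  have h30 : (3 : ZMod p) ≠ 0 := by exact_mod_cast nat_ne (p := p) (a := 3) (by norm_num) (by omega)
  have h50 : (5 : ZMod p) ≠ 0 := by exact_mod_cast nat_ne (p := p) (a := 5) (by norm_num) (by omega)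
  have h33 := qc_sq h30
  have h55 := qc_sq h50
  have h15 : (qc p 3 * qc p 5) ^ 2 = 1 := by rw [mul_pow, sq, sq, h33, h55, one_mul]
  have hfin : qc p 5 * (qc p 3 * qc p 5) ^ h =
      jacobiSym p (4 + (-1 : ℤ) ^ ((p - 1) / 4)).toNat := by
    rw [show (p - 1) / 4 = h by omega]
    rcases Nat.even_or_odd h with he | ho
    · rw [he.neg_one_pow]
      obtain ⟨k, rfl⟩ := he
      rw [← two_mul, pow_mul, h15, one_pow, mul_one, qc_five hp]
      rfl
    · rw [ho.neg_one_pow]
      obtain ⟨k, rfl⟩ := ho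
      rw [pow_succ, pow_mul, h15, one_pow, one_mul]
      have : qc p 5 * (qc p 3 * qc p 5) = qc p 3 := by linear_combination qc p 3 * h55
      rw [this, qc_three hp, jacobiSym.legendreSym.to_jacobiSym]
      rfl
  rw [← hfin]
  linear_combination (qc p 5 * (qc p 3 * qc p 5) ^ h * (-1) ^ N p) * h2

end Pool.Agent.Results.MP_dd0b6b_nt.CubicRootSymbol
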